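import Mathlib
import Pool.Agent.H76.NonElem

set_option autoImplicit false

namespace Pool.Agent.Results.MP_10a497_al.LoxGenerators

open Filter

universe u v

/-- Gromov product `(x|y)_w`. -/
noncomputable def gromovProduct {X : Type v} [MetricSpace X] (x y w : X) : ℝ :=
  (dist x w + dist y w - dist x y) / 2

/-- `X` is a geodesic metric space. -/
def IsGeodesicSpace (X : Type v) [MetricSpace X] : Prop :=
  ∀ x y : X, ∃ γ : ℝ → X, γ 0 = x ∧ γ (dist x y) = y ∧
    ∀ s ∈ Set.Icc 0 (dist x y), ∀ t ∈ Set.Icc 0 (dist x y), dist (γ s) (γ t) = |s - t|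

/-- `X` is Gromov hyperbolic (four point condition). -/
def IsHyperbolicSpace (X : Type v) [MetricSpace X] : Prop :=
  ∃ δ : ℝ, ∀ x y z w : X,
    min (gromovProduct x y w) (gromovProduct y z w) - δ ≤ gromovProduct x z w

/-- The action of `G` on `X` is by isometries. -/
def IsIsometricAction (G : Type u) (X : Type v) [Group G] [MetricSpace X] [MulAction G X] : Prop :=
  ∀ (g : G) (x y : X), dist (g • x) (g • y) = dist x y

/-- The action of `G` on `X` is acylindrical. -/
def IsAcylindrical (G : Type u) (X : Type v) [Group G] [MetricSpace X] [MulAction G X] : Prop :=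
  ∀ ε : ℝ, 0 < ε → ∃ (R : ℝ) (N : ℕ), ∀ x y : X, R ≤ dist x y →
    {g : G | dist x (g • x) ≤ ε ∧ dist y (g • y) ≤ ε}.Finite ∧
    {g : G | dist x (g • x) ≤ ε ∧ dist y (g • y) ≤ ε}.ncard ≤ N

/-- The limit set of the action has more than two points: there are three sequences in the orbit
of a point that converge at infinity and are pairwise inequivalent (two sequences converging at
infinity define the same point of the Gromov boundary iff their mutual Gromov products tend to
infinity). -/
def IsNonElementary (G : Type u) (X : Type v) [Group G] [MetricSpace X] [MulAction G X] : Prop :=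
  ∃ (o : X) (a : Fin 3 → ℕ → G),
    (∀ i, Tendsto (fun p : ℕ × ℕ => gromovProduct (a i p.1 • o) (a i p.2 • o) o) atTop atTop) ∧
    ∀ i j, i ≠ j →
      ¬ Tendsto (fun p : ℕ × ℕ => gromovProduct (a i p.1 • o) (a j p.2 • o) o) atTop atTop

/-- `g` acts loxodromically on `X`: for some point `x`, the orbit map `n ↦ g ^ n • x` is a
quasi-isometric embedding of the integers. -/
def IsLoxodromic {G : Type u} (X : Type v) [Group G] [MetricSpace X] [MulAction G X] (g : G) : Prop :=
  ∃ (x : X) (L : ℝ) (C : ℝ), 1 ≤ L ∧ 0 ≤ C ∧ ∀ m n : ℤ,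
    L⁻¹ * |(m : ℝ) - n| - C ≤ dist (g ^ m • x) (g ^ n • x) ∧
    dist (g ^ m • x) (g ^ n • x) ≤ L * |(m : ℝ) - n| + C

open Pool.Agent.H76.Hyp in
/-- **Result.** Let a finitely generated group `G` act acylindrically by isometries on a geodesic
hyperbolic space `X`, the limit set having more than two points. Then `G` has a finite generating
set of elements loxodromic for this action, which pairwise do not commute. -/
theorem result (G : Type u) [Group G] (hfg : Group.FG G)
    (X : Type v) [MetricSpace X] [MulAction G X] (_hgeo : IsGeodesicSpace X)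
    (hhyp : IsHyperbolicSpace X) (hiso : IsIsometricAction G X) (hacyl : IsAcylindrical G X)
    (hne : IsNonElementary G X) :
    ∃ S : Finset G, Subgroup.closure (S : Set G) = ⊤ ∧ (∀ s ∈ S, IsLoxodromic X s) ∧
      ∀ s ∈ S, ∀ t ∈ S, s ≠ t → s * t ≠ t * s := by
  obtain ⟨δ, hδ⟩ := hhyp
  have h4 : FourPt X (max δ 0) := by
    intro x y z w
    have h1 := hδ x z y w
    have h2 : δ ≤ max δ 0 := le_max_left _ _
    unfold gromovProduct at h1
    rw [dist_comm z y] at h1
    rcases le_total ((dist x w + dist z w - dist x z) / 2) ((dist z w + dist y w - dist y z) / 2) with h3 | h3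
    · rw [min_eq_left h3] at h1
      have : dist x z + dist y w ≤ max (dist x z + dist y w) (dist x w + dist y z) := le_max_left _ _
      linarith
    · rw [min_eq_right h3] at h1
      have : dist x w + dist y z ≤ max (dist x z + dist y w) (dist x w + dist y z) := le_max_right _ _
      linarith
  have hδ0 : (0:ℝ) ≤ max δ 0 := le_max_right _ _
  obtain ⟨o, a, ha, hab⟩ := hne
  have ha' : ∀ i, ConvInf o (fun n => a i n • o) := ha
  have hab' : ∀ i j, i ≠ j → ¬ SameEnd o (fun n => a i n • o) (fun n => a j n • o) := hab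
  obtain ⟨g, hg⟩ := exists_lox hiso h4 hδ0 (ha' 0) (ha' 1) (hab' 0 1 (by decide))
  have ht := not_EE_top hiso h4 hδ0 hacyl hg a ha' hab'
  obtain ⟨S, hS1, hS2, hS3⟩ := main_core hiso h4 hacyl hg hfg ht
  refine ⟨S, hS1, fun s hs => ?_, hS3⟩
  obtain ⟨c, hc, hcn⟩ := hS2 s hs
  refine ⟨o, max (max c⁻¹ (dist o (s • o))) 1, 0, le_max_right _ _, le_refl _, fun m n => ?_⟩
  have e0 : dist (s ^ m • o) (s ^ n • o) = dist o (s ^ (n - m) • o) := dist_zpow hiso s o m n
  have e1 := Lox.dist_ge hiso hcn (n - m)
  have e2 := dist_zpow_le hiso s o (n - m)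
  have e3 : |((n - m : ℤ) : ℝ)| = |(m : ℝ) - n| := by rw [abs_sub_comm]; push_cast; rfl
  rw [e3] at e1 e2
  rw [e0]
  have e4 : (0:ℝ) ≤ |(m : ℝ) - n| := abs_nonneg _
  constructor
  · have h5 : (max (max c⁻¹ (dist o (s • o))) 1)⁻¹ ≤ c := by
      rw [inv_le_comm₀ (lt_of_lt_of_le one_pos (le_max_right _ _)) hc]
      exact (le_max_left _ _).trans (le_max_left _ _)
    have := mul_le_mul_of_nonneg_right h5 e4
    linarith
  · have h5 : dist o (s • o) ≤ max (max c⁻¹ (dist o (s • o))) 1 :=
      (le_max_right _ _).trans (le_max_left _ _)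
    have := mul_le_mul_of_nonneg_left h5 e4
    linarith

end Pool.Agent.Results.MP_10a497_al.LoxGenerators
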